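import Pool.Agent.X247.Va.Main

/-!
# The ambiguity of intersections of boundedly ambiguous VASS languages

For all `k₁, k₂ ≥ 1` there are a `k₁`-ambiguous and a `k₂`-ambiguous VASS language whose
intersection is not an `n`-ambiguous VASS language for any `n < k₁ k₂`.
-/

namespace Pool.Agent.Results.MP_bb7684_lc.IntersectionAmbiguity

open Pool.Agent.X247.Va

/-- A vector addition system with states over the alphabet `A`: the dimension, the states, the
transitions, the initial configuration and the accepting states. -/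
structure VASS (A : Type) where
  d : ℕ
  Q : Type
  finite_states : Finite Q
  T : Set (Q × A × (Fin d → ℤ) × Q)
  finite_transitions : T.Finite
  q0 : Q
  c0 : Fin d → ℕ
  F : Set Q

/-- `ρ` is an accepting run on the word `w`: a sequence of transitions with labels `w` that can be
fired in turn from the initial configuration and leads to an accepting state. -/
def IsAcceptingRun {A : Type} (V : VASS A) (w : List A)
    (ρ : List (V.Q × A × (Fin V.d → ℤ) × V.Q)) : Prop :=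
  lab ρ = w ∧ ∃ q ∈ V.F, ∃ c, Run V.T V.q0 (fun i => (V.c0 i : ℤ)) ρ q c

/-- `L` is recognised by a VASS for which every word has at most `k` accepting runs. -/
def IsAmbiguousVASSLanguage {A : Type} (k : ℕ) (L : Set (List A)) : Prop :=
  ∃ V : VASS A, (∀ w, w ∈ L ↔ ∃ ρ, IsAcceptingRun V w ρ) ∧
    ∀ w, {ρ | IsAcceptingRun V w ρ}.encard ≤ k

section upper

variable {ι : Type} [DecidableEq ι] {k : ℕ} (g : Fin k → ι)

/-- some of the counters stays nonnegative -/
def Lg : Set (List (ι × Bool)) := {w | ∃ i, Ok (g i) 0 w}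

/-- guess a counter -/
def Tg : Set (Option (Fin k) × (ι × Bool) × (Fin 1 → ℤ) × Option (Fin k)) :=
  {t | ∃ i : Fin k, (t.1 = none ∨ t.1 = some i) ∧ t.2.2.1 = (fun _ => ef (g i) t.2.1) ∧
    t.2.2.2 = some i}

/-- the system -/
def Vg [Finite ι] : VASS (ι × Bool) where
  d := 1
  Q := Option (Fin k)
  finite_states := inferInstance
  T := Tg g
  finite_transitions := by
    refine (Set.finite_range (fun z : Option (Fin k) × (ι × Bool) × Fin k =>
      ((z.1, z.2.1, (fun _ => ef (g z.2.2) z.2.1), some z.2.2) :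
        Option (Fin k) × (ι × Bool) × (Fin 1 → ℤ) × Option (Fin k)))).subset ?_
    rintro ⟨q, x, v, q'⟩ ⟨i, _, h2, h3⟩
    refine ⟨(q, x, i), ?_⟩
    simp only at h2 h3
    rw [h2, h3]
  q0 := none
  c0 := fun _ => 0
  F := Set.univ

/-- the run for a guess -/
def Rg (i : Fin k) : Option (Fin k) → List (ι × Bool) →
    List (Option (Fin k) × (ι × Bool) × (Fin 1 → ℤ) × Option (Fin k))
  | _, [] => []
  | q, x :: w => (q, x, (fun _ => ef (g i) x), some i) :: Rg i (some i) w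

theorem lab_Rg (i : Fin k) : ∀ (w : List (ι × Bool)) (q : Option (Fin k)),
    lab (Rg g i q w) = w := by
  intro w
  induction w with
  | nil => intro q; rfl
  | cons x w ih =>
    intro q
    have h := ih (some i)
    unfold lab at h ⊢
    simp only [Rg, List.map_cons, h]

theorem run_Rg (i : Fin k) : ∀ (w : List (ι × Bool)) (q : Option (Fin k)) (z : ℤ),
    (q = none ∨ q = some i) → Ok (g i) z w →
    ∃ q' c', Run (Tg g) q (fun _ => z) (Rg g i q w) q' c' := by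
  intro w
  induction w with
  | nil => intro q z _ _; exact ⟨q, _, rfl, rfl⟩
  | cons x w ih =>
    intro q z hq h
    obtain ⟨q', c', h1⟩ := ih (some i) _ (Or.inr rfl) h.2
    exact ⟨q', c', ⟨i, hq, rfl, rfl⟩, rfl, fun _ => h.1, h1⟩

theorem run_some (i : Fin k) : ∀ (ρ : List (Option (Fin k) × (ι × Bool) × (Fin 1 → ℤ) ×
    Option (Fin k))) (z : ℤ) (q' : Option (Fin k)) (c' : Fin 1 → ℤ),
    Run (Tg g) (some i) (fun _ => z) ρ q' c' → ρ = Rg g i (some i) (lab ρ) ∧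
      Ok (g i) z (lab ρ) := by
  intro ρ
  induction ρ with
  | nil => intro z q' c' _; exact ⟨rfl, trivial⟩
  | cons t ρ ih =>
    intro z q' c' h
    obtain ⟨⟨j, h1, h2, h3⟩, h4, h5, h6⟩ := h
    obtain ⟨q, x, v, q1⟩ := t
    simp only at h1 h2 h3 h4 h5 h6
    subst h4
    have hij : i = j := by
      rcases h1 with h1 | h1
      · cases h1
      · exact Option.some_injective _ h1
    subst hij h2 h3
    have h7 := ih _ q' c' h6
    have e1 : lab ((some i, x, (fun _ => ef (g i) x), some i) :: ρ) = x :: lab ρ := rfl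
    rw [e1]
    refine ⟨?_, h5 0, h7.2⟩
    show _ = _ :: _
    rw [← h7.1]

theorem run_none (hk : 1 ≤ k) (ρ : List (Option (Fin k) × (ι × Bool) × (Fin 1 → ℤ) ×
    Option (Fin k))) (q' : Option (Fin k)) (c' : Fin 1 → ℤ)
    (h : Run (Tg g) none (fun _ => 0) ρ q' c') : ∃ i, ρ = Rg g i none (lab ρ) ∧
      Ok (g i) 0 (lab ρ) := by
  cases ρ with
  | nil => exact ⟨⟨0, hk⟩, rfl, trivial⟩
  | cons t ρ =>
    obtain ⟨⟨j, _, h2, h3⟩, h4, h5, h6⟩ := h
    obtain ⟨q, x, v, q1⟩ := t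
    simp only at h2 h3 h4 h5 h6
    subst h4 h2 h3
    have h7 := run_some g j ρ _ q' c' h6
    have e1 : lab ((none, x, (fun _ => ef (g j) x), some j) :: ρ) = x :: lab ρ := rfl
    refine ⟨j, ?_, ?_⟩
    · rw [e1]
      show _ = _ :: _
      rw [← h7.1]
    · rw [e1]
      exact ⟨h5 0, h7.2⟩

theorem upper [Finite ι] (hk : 1 ≤ k) : IsAmbiguousVASSLanguage k (Lg g) := by
  have h0 : (fun i => (((Vg g).c0 i : ℕ) : ℤ)) = fun _ => (0 : ℤ) := by
    funext i; rfl
  refine ⟨Vg g, fun w => ⟨?_, ?_⟩, fun w => ?_⟩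
  · rintro ⟨i, hi⟩
    obtain ⟨q', c', h1⟩ := run_Rg g i w none 0 (Or.inl rfl) hi
    refine ⟨Rg g i none w, lab_Rg g i w none, q', Set.mem_univ _, c', ?_⟩
    rw [h0]
    exact h1
  · rintro ⟨ρ, h1, q', _, c', h2⟩
    rw [h0] at h2
    obtain ⟨i, _, h3⟩ := run_none g hk ρ q' c' h2
    rw [← h1]
    exact ⟨i, h3⟩
  · have h1 : {ρ | IsAcceptingRun (Vg g) w ρ} ⊆ (fun i : Fin k => Rg g i none w) '' Set.univ := by
      rintro ρ ⟨h1, q', _, c', h2⟩
      rw [h0] at h2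
      obtain ⟨i, h3, _⟩ := run_none g hk ρ q' c' h2
      refine ⟨i, Set.mem_univ _, ?_⟩
      show Rg g i none w = ρ
      rw [← h1]
      exact h3.symm
    refine (Set.encard_le_encard h1).trans ((Set.encard_image_le _ _).trans ?_)
    rw [Set.encard_univ, ENat.card_eq_coe_fintype_card, Fintype.card_fin]

end upper

theorem neg_sum {ι : Type} [DecidableEq ι] {I : Set ι} {l : ι} (hl : l ∉ I) {R : ℕ} :
    ∀ (P : Par ι) (P' : List (ι × ℕ × ℕ)), (∀ p ∈ P, p.2.2.2 < R) →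
      List.Forall₂ (fun p p' => p'.1 = p.1 ∧ p'.2.1 = p.2.2.2 ∧ (p.1 ∉ I → R ≤ p'.2.2)) P P' →
      tot l (wd P') ≤ 0 ∧ (l ∈ P.map Prod.fst → tot l (wd P') < 0) := by
  intro P P' hP h
  induction h with
  | nil => exact ⟨le_rfl, fun h => by simp at h⟩
  | @cons p p' P P' hpp _ ih =>
    obtain ⟨h1, h2, h3⟩ := hpp
    obtain ⟨ih1, ih2⟩ := ih fun p hp => hP p (List.mem_cons_of_mem _ hp)
    have hN := hP p (List.mem_cons_self ..)
    rw [tot_wd] at ih1 ih2 ⊢
    rw [List.map_cons, List.sum_cons]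
    by_cases hp : p'.1 = l
    · rw [if_pos hp]
      have h4 := h3 (by rw [← h1, hp]; exact hl)
      have h5 : (p'.2.1 : ℤ) - p'.2.2 < 0 := by
        rw [h2]; omega
      exact ⟨by linarith, fun _ => by linarith⟩
    · rw [if_neg hp, zero_add]
      refine ⟨ih1, fun h => ih2 ?_⟩
      rw [List.map_cons, List.mem_cons] at h
      rcases h with h | h
      · exact absurd (h1.trans h.symm) hp
      · exact h

/-- Intersections of a `k₁`-ambiguous and a `k₂`-ambiguous VASS language can require ambiguity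
`k₁ k₂`. -/
theorem result : ∀ k₁ k₂ : ℕ, 1 ≤ k₁ → 1 ≤ k₂ →
    ∃ (A : Type) (_ : Finite A) (L₁ L₂ : Set (List A)),
      IsAmbiguousVASSLanguage k₁ L₁ ∧ IsAmbiguousVASSLanguage k₂ L₂ ∧
        ∀ n, 1 ≤ n → n ≤ k₁ * k₂ - 1 → ¬ IsAmbiguousVASSLanguage n (L₁ ∩ L₂) := by
  classical
  intro k₁ k₂ hk₁ hk₂
  refine ⟨(Fin k₁ ⊕ Fin k₂) × Bool, inferInstance, Lg Sum.inl, Lg Sum.inr,
    upper _ hk₁, upper _ hk₂, ?_⟩
  rintro n - hn ⟨V, hV1, hV2⟩
  haveI := V.finite_states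
  have hc0 : (0 : Fin V.d → ℤ) ≤ fun i => (V.c0 i : ℤ) := fun i => by simp
  obtain ⟨P, hP1, hP2, hP3⟩ := params V.finite_transitions
    (Finset.univ : Finset (Fin k₁ ⊕ Fin k₂)).toList
    {(V.q0, fun i => (V.c0 i : ℤ))} (Set.finite_singleton _) (by
      intro x hx
      rw [Set.mem_singleton_iff] at hx
      rw [hx]
      exact hc0)
  -- the words with two long blocks are in the intersection
  have hmem : ∀ (I : Set (Fin k₁ ⊕ Fin k₂)) (l : Fin k₁ ⊕ Fin k₂), l ∈ I →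
      Ok l 0 (wd (sel I P)) := by
    intro I l hl
    refine ok_wd _ 0 le_rfl ?_
    intro p hp hpl
    obtain ⟨p0, hp0, rfl⟩ := List.mem_map.1 hp
    simp only at hpl ⊢
    rw [hpl, if_pos hl]
    exact hP2 p0 hp0
  have hrun : ∀ ij : Fin k₁ × Fin k₂, ∃ ρ, IsAcceptingRun V (wd (full P)) ρ ∧
      Has {Sum.inl ij.1, Sum.inr ij.2} P ρ := by
    intro ij
    have h1 : wd (sel {Sum.inl ij.1, Sum.inr ij.2} P) ∈
        (Lg Sum.inl ∩ Lg Sum.inr : Set (List ((Fin k₁ ⊕ Fin k₂) × Bool))) :=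
      ⟨⟨ij.1, hmem _ _ (by simp)⟩, ⟨ij.2, hmem _ _ (by simp)⟩⟩
    obtain ⟨ρ, h2, q, hq, c, h3⟩ := (hV1 _).1 h1
    obtain ⟨ρ', e, h4, _, h5, h6⟩ := hP3 {Sum.inl ij.1, Sum.inr ij.2} _ rfl ρ q c h3 h2
    exact ⟨ρ', ⟨h5, q, hq, e, h4⟩, h6⟩
  choose f hf1 hf2 using hrun
  -- a run in which all second blocks of one kind contain loops is impossible
  have hno : ∀ (I : Set (Fin k₁ ⊕ Fin k₂)) (ρ), IsAcceptingRun V (wd (full P)) ρ → Has I P ρ →
      (∃ i : Fin k₁, Sum.inl i ∈ I) ∧ ∃ j : Fin k₂, Sum.inr j ∈ I := by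
    rintro I ρ ⟨h1, q, hq, c, h2⟩ h3
    obtain ⟨P', ρ', e, h4, h5, h6⟩ := pump_second (1 + (P.map fun p => p.2.2.2).sum) P _ _ ρ q c
      h2 h1 h3
    have h7 : wd P' ∈ (Lg Sum.inl ∩ Lg Sum.inr : Set (List ((Fin k₁ ⊕ Fin k₂) × Bool))) :=
      (hV1 _).2 ⟨ρ', h5, q, hq, e, h4⟩
    have h8 : ∀ p ∈ P, p.2.2.2 < 1 + (P.map fun p => p.2.2.2).sum := by
      intro p hp
      have := List.single_le_sum (l := P.map fun p => p.2.2.2) (fun _ _ => Nat.zero_le _) _
        (List.mem_map.2 ⟨p, hp, rfl⟩)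
      omega
    have h9 : ∀ l : Fin k₁ ⊕ Fin k₂, Ok l 0 (wd P') → l ∈ I := by
      intro l hl
      by_contra hlI
      have h10 := (neg_sum hlI P P' h8 h6).2 (by rw [hP1]; simp)
      have h11 := ok_tot _ 0 le_rfl hl
      omega
    obtain ⟨⟨i, hi⟩, ⟨j, hj⟩⟩ := h7
    exact ⟨⟨i, h9 _ hi⟩, ⟨j, h9 _ hj⟩⟩
  have hinj : Function.Injective f := by
    intro a b hab
    have h1 := has_inter P (f a) (hf2 a) (by rw [hab]; exact hf2 b)
    obtain ⟨⟨i, hi⟩, ⟨j, hj⟩⟩ := hno _ _ (hf1 a) h1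
    simp only [Set.mem_inter_iff, Set.mem_insert_iff, Set.mem_singleton_iff, Sum.inl.injEq,
      Sum.inr.injEq, reduceCtorEq, or_false, false_or] at hi hj
    exact Prod.ext (hi.1.symm.trans hi.2) (hj.1.symm.trans hj.2)
  have h1 : f '' Set.univ ⊆ {ρ | IsAcceptingRun V (wd (full P)) ρ} := by
    rintro _ ⟨a, _, rfl⟩
    exact hf1 a
  have h2 := (Set.encard_le_encard h1).trans (hV2 _)
  rw [hinj.encard_image, Set.encard_univ, ENat.card_eq_coe_fintype_card, Fintype.card_prod,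
    Fintype.card_fin, Fintype.card_fin] at h2
  have h3 : k₁ * k₂ ≤ n := by exact_mod_cast h2
  have h4 : 1 ≤ k₁ * k₂ := Nat.mul_pos hk₁ hk₂
  omega

end Pool.Agent.Results.MP_bb7684_lc.IntersectionAmbiguity
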